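import Pool.Graph.R_pool_sql_team_seeded_3997aac3.Q272.AV.V1

set_option autoImplicit false

/-!
The weighted identity of the library (Q272.AV.V1) for bounded smooth 1-Lipschitz weights on open sets
which need not be bounded.
-/

open MeasureTheory Filter Topology Set
open scoped ContDiff InnerProductSpace

namespace Pool.Agent.H30AV

open Pool.Agent.Q62.AV
open Pool.Agent.Q272.AV (lim_inner lim_mul integrable_inner integrable_mul gradient_smooth_mul
  gradient_continuous memLp_test memLp_gradient_test wt_pos wt_contDiff wt_lip)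

variable {n : ℕ}

/-- the weights: smooth, 1-Lipschitz, bounded above -/
structure GW (W : Eu n → ℝ) : Prop where
  smooth : ContDiff ℝ ∞ W
  lip : LipschitzWith 1 W
  bdd : ∃ C : ℝ, ∀ x, W x ≤ C

lemma GW.norm_gradient {W : Eu n → ℝ} (hW : GW W) (x : Eu n) : ‖gradient W x‖ ≤ 1 := by
  unfold gradient
  rw [LinearIsometryEquiv.norm_map]
  exact_mod_cast norm_fderiv_le_of_lipschitz ℝ hW.lip

/-- the truncation `M s / (M + s)` -/
noncomputable def tr (M s : ℝ) : ℝ := M * s / (M + s)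

lemma tr_mono {M s t : ℝ} (hM : 0 < M) (hs : 0 ≤ s) (hst : s ≤ t) : tr M s ≤ tr M t := by
  unfold tr
  rw [div_le_div_iff₀ (by linarith) (by linarith)]
  nlinarith [mul_nonneg (mul_pos hM hM).le (sub_nonneg.2 hst)]

lemma tr_le {M s : ℝ} (hM : 0 < M) (hs : 0 ≤ s) : tr M s ≤ s := by
  unfold tr
  rw [div_le_iff₀ (by linarith)]
  nlinarith

lemma tr_le' {M s : ℝ} (hM : 0 < M) (hs : 0 ≤ s) : tr M s ≤ M := by
  unfold tr
  rw [div_le_iff₀ (by linarith)]
  nlinarith

lemma le_tr {M s : ℝ} (hM : 0 < M) (hs : 0 ≤ s) : s - s ^ 2 / M ≤ tr M s := by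
  unfold tr
  rw [le_div_iff₀ (by linarith)]
  have e : (s - s ^ 2 / M) * (M + s) = M * s - s ^ 3 / M := by
    field_simp
    ring
  rw [e]
  have : 0 ≤ s ^ 3 / M := by positivity
  linarith

lemma tr_lip {M s t : ℝ} (hM : 0 < M) (hs : 0 ≤ s) (ht : 0 ≤ t) :
    |tr M s - tr M t| ≤ |s - t| := by
  have e : tr M s - tr M t = (M ^ 2 / ((M + s) * (M + t))) * (s - t) := by
    unfold tr
    have h1 : M + s ≠ 0 := by positivity
    have h2 : M + t ≠ 0 := by positivity
    field_simp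
    ring
  rw [e, abs_mul]
  have h3 : |M ^ 2 / ((M + s) * (M + t))| ≤ 1 := by
    rw [abs_of_nonneg (by positivity), div_le_one (by positivity)]
    nlinarith [mul_nonneg hs ht, mul_nonneg hM.le hs, mul_nonneg hM.le ht]
  calc _ ≤ 1 * |s - t| := mul_le_mul_of_nonneg_right h3 (abs_nonneg _)
    _ = _ := one_mul _

lemma gw_tr (x₀ : Eu n) {M : ℝ} (hM : 0 < M) : GW (fun x => tr M (wt x₀ x)) := by
  refine ⟨?_, ?_, M, fun x => tr_le' hM (wt_pos x₀ x).le⟩
  · unfold tr
    exact (contDiff_const.mul (wt_contDiff x₀)).div (contDiff_const.add (wt_contDiff x₀))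
      (fun x => by have := wt_pos x₀ x; positivity)
  · apply LipschitzWith.of_dist_le_mul
    intro x y
    rw [NNReal.coe_one, one_mul, Real.dist_eq]
    refine (tr_lip hM (wt_pos x₀ x).le (wt_pos x₀ y).le).trans ?_
    have := (wt_lip x₀).dist_le_mul x y
    rwa [NNReal.coe_one, one_mul, Real.dist_eq] at this

/-- The weight. -/
noncomputable def Wf (W : Eu n → ℝ) (κ : ℝ) (x : Eu n) : ℝ := Real.exp (2 * κ * W x)

lemma Wf_pos (W : Eu n → ℝ) (κ : ℝ) (x : Eu n) : 0 < Wf W κ x := Real.exp_pos _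

lemma Wf_contDiff {W : Eu n → ℝ} (hW : GW W) (κ : ℝ) : ContDiff ℝ ∞ (Wf W κ) :=
  (contDiff_const.mul (hW.smooth)).exp

lemma Wf_bdd {W : Eu n → ℝ} (hW : GW W) (κ : ℝ) (hκ : 0 ≤ κ) :
    ∃ C : ℝ, 0 ≤ C ∧ ∀ x, Wf W κ x ≤ C := by
  obtain ⟨C, hC⟩ := hW.bdd
  refine ⟨Real.exp (2 * κ * C), (Real.exp_pos _).le, fun x => ?_⟩
  unfold Wf
  apply Real.exp_le_exp.2
  have := hC x
  nlinarith

lemma testIn_mul {W : Eu n → ℝ} (hW : GW W) {G : Set (Eu n)} {φ : Eu n → ℝ} (h : TestIn G φ) (κ : ℝ) :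
    TestIn G (fun x => Wf W κ x * φ x) := by
  refine ⟨(Wf_contDiff hW κ).mul h.1, h.2.1.mul_left, ?_⟩
  exact (tsupport_mul_subset_right).trans h.2.2

lemma gradient_Wf {W : Eu n → ℝ} (hW : GW W) (κ : ℝ) (x : Eu n) :
    gradient (Wf W κ) x = (2 * κ * Wf W κ x) • gradient W x := by
  unfold gradient
  have hd : DifferentiableAt ℝ W x :=
    (hW.smooth).contDiffAt.differentiableAt (by norm_num)
  have h1 : fderiv ℝ (Wf W κ) x = Wf W κ x • ((2 * κ) • fderiv ℝ W x) := by
    have h2 := (hd.hasFDerivAt.const_mul (2 * κ)).exp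
    exact h2.fderiv
  rw [h1]
  simp only [map_smul, smul_smul]
  have e : Wf W κ x * (2 * κ) = 2 * κ * Wf W κ x := by ring
  simp [smul_smul, e]

lemma gradient_test {W : Eu n → ℝ} (hW : GW W) (κ : ℝ) {G : Set (Eu n)} {φ : Eu n → ℝ} (h : TestIn G φ)
    (x : Eu n) : gradient (fun y => Wf W κ y * φ y) x =
      Wf W κ x • gradient φ x + (2 * κ * (Wf W κ x * φ x)) • gradient W x := by
  rw [gradient_smooth_mul _ _ x ((Wf_contDiff hW κ).contDiffAt.differentiableAt (by norm_num))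
    (h.1.contDiffAt.differentiableAt (by norm_num)), gradient_Wf hW, smul_smul]
  congr 2
  ring

section weight

variable {G : Set (Eu n)} (hGo : IsOpen G) {W : Eu n → ℝ} (hW : GW W) (κ : ℝ)
  (hκ : 0 ≤ κ)

include hGo hW hκ

lemma memLp_W {F : Type*} [NormedAddCommGroup F] [NormedSpace ℝ F] {g : Eu n → F}
    (hg : MemLp g 2 (volume.restrict G)) :
    MemLp (fun x => Wf W κ x • g x) 2 (volume.restrict G) := by
  obtain ⟨C, hC0, hC⟩ := Wf_bdd hW κ hκ
  refine hg.of_le_mul (c := C) ?_ ?_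
  · exact (Wf_contDiff hW κ).continuous.aestronglyMeasurable.smul hg.1
  · rw [ae_restrict_iff' hGo.measurableSet]
    filter_upwards with x hx
    rw [norm_smul, Real.norm_eq_abs, abs_of_pos (Wf_pos W κ x)]
    exact mul_le_mul_of_nonneg_right (hC x) (norm_nonneg _)

lemma memLp_W_inner {g : Eu n → Eu n} (hg : MemLp g 2 (volume.restrict G)) :
    MemLp (fun x => Wf W κ x * ⟪g x, gradient W x⟫_ℝ) 2 (volume.restrict G) := by
  have h1 : MemLp (fun x => ⟪g x, gradient W x⟫_ℝ) 2 (volume.restrict G) := by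
    refine hg.of_le_mul (c := 1) ?_ ?_
    · exact hg.1.inner (gradient_continuous (hW.smooth)).aestronglyMeasurable
    · filter_upwards with x
      calc ‖⟪g x, gradient W x⟫_ℝ‖ ≤ ‖g x‖ * ‖gradient W x‖ := norm_inner_le_norm _ _
        _ ≤ ‖g x‖ * 1 := mul_le_mul_of_nonneg_left (hW.norm_gradient x) (norm_nonneg _)
        _ = 1 * ‖g x‖ := by ring
  exact memLp_W hGo hW κ hκ h1

lemma weighted_identity (l l' : ℝ) (v v' : Eu n → ℝ) (g g' : Eu n → Eu n)
    (h : Eig G l v g) (h' : Eig G l' v' g') :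
    ∫ x in G, Real.exp (2 * κ * W x) * ⟪g x, g' x⟫_ℝ =
      l * (∫ x in G, Real.exp (2 * κ * W x) * (v x * v' x)) -
        2 * κ * ∫ x in G, Real.exp (2 * κ * W x) * (v' x * ⟪g x, gradient W x⟫_ℝ) := by
  obtain ⟨⟨hv, hg, -⟩, hweak⟩ := h
  obtain ⟨⟨hv', hg', φ, hφ, hφv, hφg⟩, -⟩ := h'
  have m1 := memLp_W hGo hW κ hκ hg
  have m2 := memLp_W_inner hGo hW κ hκ hg
  have m3 : MemLp (fun x => Wf W κ x * v x) 2 (volume.restrict G) :=
    memLp_W hGo hW κ hκ hv
  have t1 := lim_inner m1 (fun k => memLp_gradient_test (hφ k)) hg' hφg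
  have t2 := lim_mul m2 (fun k => memLp_test (hφ k)) hv' hφv
  have t3 := lim_mul m3 (fun k => memLp_test (hφ k)) hv' hφv
  have key : ∀ k, (∫ x in G, ⟪Wf W κ x • g x, gradient (φ k) x⟫_ℝ) +
      2 * κ * (∫ x in G, Wf W κ x * ⟪g x, gradient W x⟫_ℝ * φ k x) =
      l * ∫ x in G, Wf W κ x * v x * φ k x := by
    intro k
    have h1 := hweak _ (testIn_mul hW (hφ k) κ)
    rw [← integral_const_mul, ← integral_add (integrable_inner m1 (memLp_gradient_test (hφ k)))
      ((integrable_mul m2 (memLp_test (hφ k))).const_mul _)]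
    have e1 : ∫ x in G, Wf W κ x * v x * φ k x = ∫ x in G, v x * (Wf W κ x * φ k x) := by
      apply integral_congr_ae
      filter_upwards with x
      ring
    rw [e1, ← h1]
    apply integral_congr_ae
    filter_upwards with x
    rw [gradient_test hW κ (hφ k) x, inner_add_right, real_inner_smul_left, real_inner_smul_right,
      real_inner_smul_right]
    ring
  have t4 := (t1.add (t2.const_mul (2 * κ)))
  have t5 := t3.const_mul l
  simp only [key] at t4
  have h6 := tendsto_nhds_unique t4 t5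
  have e1 : ∫ x in G, ⟪Wf W κ x • g x, g' x⟫_ℝ =
      ∫ x in G, Real.exp (2 * κ * W x) * ⟪g x, g' x⟫_ℝ := by
    apply integral_congr_ae
    filter_upwards with x
    rw [real_inner_smul_left]
    rfl
  have e2 : ∫ x in G, Wf W κ x * ⟪g x, gradient W x⟫_ℝ * v' x =
      ∫ x in G, Real.exp (2 * κ * W x) * (v' x * ⟪g x, gradient W x⟫_ℝ) := by
    apply integral_congr_ae
    filter_upwards with x
    unfold Wf
    ring
  have e3 : ∫ x in G, Wf W κ x * v x * v' x =
      ∫ x in G, Real.exp (2 * κ * W x) * (v x * v' x) := by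
    apply integral_congr_ae
    filter_upwards with x
    unfold Wf
    ring
  rw [e1, e2, e3] at h6
  linarith

end weight


end Pool.Agent.H30AV
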