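import Pool.Agent.H30AV.U1
import Pool.Graph.R_pool_sql_team_seeded_3997aac3.Q272.AV.V2

set_option autoImplicit false

/-! The weighted energy inequality (library: Q272.AV.V2) without boundedness of `G`. -/

open MeasureTheory Filter Topology Set
open scoped ContDiff InnerProductSpace

namespace Pool.Agent.H30AV

open Pool.Agent.Q62.AV
open Pool.Agent.Q272.AV (lim_inner lim_mul integrable_inner integrable_mul energy)

variable {n : ℕ}

section forms

variable {G : Set (Eu n)} (W : Eu n → ℝ) (κ : ℝ) (v : ℕ → Eu n → ℝ) (g : ℕ → Eu n → Eu n)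

/-- `∫ W v_j v_k` -/
noncomputable def PP (G : Set (Eu n)) (W : Eu n → ℝ) (κ : ℝ) (v : ℕ → Eu n → ℝ) (j k : ℕ) : ℝ :=
  ∫ x in G, Real.exp (2 * κ * W x) * (v j x * v k x)

/-- `∫ W ⟪g_j, g_k⟫` -/
noncomputable def QQ (G : Set (Eu n)) (W : Eu n → ℝ) (κ : ℝ) (g : ℕ → Eu n → Eu n) (j k : ℕ) : ℝ :=
  ∫ x in G, Real.exp (2 * κ * W x) * ⟪g j x, g k x⟫_ℝ

/-- `∫ W v_j ⟪g_k, ∇ wt⟫` -/
noncomputable def RR (G : Set (Eu n)) (W : Eu n → ℝ) (κ : ℝ) (v : ℕ → Eu n → ℝ)
    (g : ℕ → Eu n → Eu n) (j k : ℕ) : ℝ :=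
  ∫ x in G, Real.exp (2 * κ * W x) * (v j x * ⟪g k x, gradient W x⟫_ℝ)

lemma PP_symm (j k : ℕ) : PP G W κ v j k = PP G W κ v k j := by
  unfold PP
  apply integral_congr_ae
  filter_upwards with x
  ring

lemma QQ_symm (j k : ℕ) : QQ G W κ g j k = QQ G W κ g k j := by
  unfold QQ
  apply integral_congr_ae
  filter_upwards with x
  rw [real_inner_comm]

variable (hGo : IsOpen G) (hW : GW W) (hκ : 0 ≤ κ)
  (hv : ∀ j, MemLp (v j) 2 (volume.restrict G)) (hg : ∀ j, MemLp (g j) 2 (volume.restrict G))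

include hGo hW hκ hv hg

lemma int_P (j k : ℕ) :
    Integrable (fun x => Real.exp (2 * κ * W x) * (v j x * v k x)) (volume.restrict G) := by
  refine (integrable_mul (memLp_W hGo hW κ hκ (hv j)) (hv k)).congr ?_
  filter_upwards with x
  simp only [smul_eq_mul, Wf]
  ring

lemma int_Q (j k : ℕ) :
    Integrable (fun x => Real.exp (2 * κ * W x) * ⟪g j x, g k x⟫_ℝ) (volume.restrict G) := by
  refine (integrable_inner (memLp_W hGo hW κ hκ (hg j)) (hg k)).congr ?_
  filter_upwards with x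
  rw [real_inner_smul_left]
  rfl

lemma int_R (j k : ℕ) :
    Integrable (fun x => Real.exp (2 * κ * W x) * (v j x * ⟪g k x, gradient W x⟫_ℝ))
      (volume.restrict G) := by
  refine (integrable_mul (memLp_W_inner hGo hW κ hκ (hg k)) (hv j)).congr ?_
  filter_upwards with x
  simp only [Wf]
  ring

lemma expand_P (S : Finset ℕ) (c d : ℕ → ℝ) :
    ∫ x in G, Real.exp (2 * κ * W x) * ((∑ j ∈ S, c j * v j x) * (∑ j ∈ S, d j * v j x)) =
      ∑ j ∈ S, ∑ k ∈ S, c j * d k * PP G W κ v j k := by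
  have e : ∀ x, Real.exp (2 * κ * W x) *
      ((∑ j ∈ S, c j * v j x) * (∑ j ∈ S, d j * v j x)) =
      ∑ j ∈ S, ∑ k ∈ S, c j * d k * (Real.exp (2 * κ * W x) * (v j x * v k x)) := by
    intro x
    rw [Finset.sum_mul_sum, Finset.mul_sum]
    apply Finset.sum_congr rfl
    intro j _
    rw [Finset.mul_sum]
    apply Finset.sum_congr rfl
    intro k _
    ring
  simp only [e]
  rw [integral_finsetSum]
  · apply Finset.sum_congr rfl
    intro j _
    rw [integral_finsetSum]
    · apply Finset.sum_congr rfl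
      intro k _
      rw [integral_const_mul]
      rfl
    · intro k _
      exact (int_P W κ v g hGo hW hκ hv hg j k).const_mul _
  · intro j _
    apply integrable_finsetSum
    intro k _
    exact (int_P W κ v g hGo hW hκ hv hg j k).const_mul _

lemma expand_Q (S : Finset ℕ) (c d : ℕ → ℝ) :
    ∫ x in G, Real.exp (2 * κ * W x) * ⟪∑ j ∈ S, c j • g j x, ∑ j ∈ S, d j • g j x⟫_ℝ =
      ∑ j ∈ S, ∑ k ∈ S, c j * d k * QQ G W κ g j k := by
  have e : ∀ x, Real.exp (2 * κ * W x) *
      ⟪∑ j ∈ S, c j • g j x, ∑ j ∈ S, d j • g j x⟫_ℝ =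
      ∑ j ∈ S, ∑ k ∈ S, c j * d k * (Real.exp (2 * κ * W x) * ⟪g j x, g k x⟫_ℝ) := by
    intro x
    rw [sum_inner, Finset.mul_sum]
    apply Finset.sum_congr rfl
    intro j _
    rw [inner_sum, Finset.mul_sum]
    apply Finset.sum_congr rfl
    intro k _
    rw [real_inner_smul_left, real_inner_smul_right]
    ring
  simp only [e]
  rw [integral_finsetSum]
  · apply Finset.sum_congr rfl
    intro j _
    rw [integral_finsetSum]
    · apply Finset.sum_congr rfl
      intro k _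
      rw [integral_const_mul]
      rfl
    · intro k _
      exact (int_Q W κ v g hGo hW hκ hv hg j k).const_mul _
  · intro j _
    apply integrable_finsetSum
    intro k _
    exact (int_Q W κ v g hGo hW hκ hv hg j k).const_mul _

lemma expand_R (S : Finset ℕ) (c d : ℕ → ℝ) :
    ∫ x in G, Real.exp (2 * κ * W x) *
      ((∑ j ∈ S, c j * v j x) * ⟪∑ j ∈ S, d j • g j x, gradient W x⟫_ℝ) =
      ∑ j ∈ S, ∑ k ∈ S, c j * d k * RR G W κ v g j k := by
  have e : ∀ x, Real.exp (2 * κ * W x) *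
      ((∑ j ∈ S, c j * v j x) * ⟪∑ j ∈ S, d j • g j x, gradient W x⟫_ℝ) =
      ∑ j ∈ S, ∑ k ∈ S, c j * d k *
        (Real.exp (2 * κ * W x) * (v j x * ⟪g k x, gradient W x⟫_ℝ)) := by
    intro x
    rw [sum_inner, Finset.sum_mul_sum, Finset.mul_sum]
    apply Finset.sum_congr rfl
    intro j _
    rw [Finset.mul_sum]
    apply Finset.sum_congr rfl
    intro k _
    rw [real_inner_smul_left]
    ring
  simp only [e]
  rw [integral_finsetSum]
  · apply Finset.sum_congr rfl
    intro j _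
    rw [integral_finsetSum]
    · apply Finset.sum_congr rfl
      intro k _
      rw [integral_const_mul]
      rfl
    · intro k _
      exact (int_R W κ v g hGo hW hκ hv hg j k).const_mul _
  · intro j _
    apply integrable_finsetSum
    intro k _
    exact (int_R W κ v g hGo hW hκ hv hg j k).const_mul _

/-- The basic inequality. -/
lemma abs_R_le (S : Finset ℕ) (c d : ℕ → ℝ) :
    2 * |∑ j ∈ S, ∑ k ∈ S, c j * d k * RR G W κ v g j k| ≤
      (∑ j ∈ S, ∑ k ∈ S, c j * c k * PP G W κ v j k) +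
        ∑ j ∈ S, ∑ k ∈ S, d j * d k * QQ G W κ g j k := by
  rw [← expand_R W κ v g hGo hW hκ hv hg S c d, ← expand_P W κ v g hGo hW hκ hv hg S c c,
    ← expand_Q W κ v g hGo hW hκ hv hg S d d]
  have mc : MemLp (fun x => ∑ j ∈ S, c j * v j x) 2 (volume.restrict G) :=
    memLp_finsetSum S (fun j _ => (hv j).const_mul (c j))
  have md : MemLp (fun x => ∑ j ∈ S, d j • g j x) 2 (volume.restrict G) :=
    memLp_finsetSum S (fun j _ => (hg j).const_smul (d j))
  have i1 : Integrable (fun x => Real.exp (2 * κ * W x) *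
      ((∑ j ∈ S, c j * v j x) * (∑ j ∈ S, c j * v j x))) (volume.restrict G) := by
    refine (integrable_mul (memLp_W hGo hW κ hκ mc) mc).congr ?_
    filter_upwards with x
    simp only [smul_eq_mul, Wf]
    ring
  have i2 : Integrable (fun x => Real.exp (2 * κ * W x) *
      ⟪∑ j ∈ S, d j • g j x, ∑ j ∈ S, d j • g j x⟫_ℝ) (volume.restrict G) := by
    refine (integrable_inner (memLp_W hGo hW κ hκ md) md).congr ?_
    filter_upwards with x
    rw [real_inner_smul_left]
    rfl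
  have i3 : Integrable (fun x => Real.exp (2 * κ * W x) *
      ((∑ j ∈ S, c j * v j x) * ⟪∑ j ∈ S, d j • g j x, gradient W x⟫_ℝ))
      (volume.restrict G) := by
    refine (integrable_mul (memLp_W_inner hGo hW κ hκ md) mc).congr ?_
    filter_upwards with x
    simp only [Wf]
    ring
  rw [← integral_add i1 i2]
  have h1 := abs_integral_le_integral_abs (μ := volume.restrict G)
    (f := fun x => Real.exp (2 * κ * W x) *
      ((∑ j ∈ S, c j * v j x) * ⟪∑ j ∈ S, d j • g j x, gradient W x⟫_ℝ))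
  have h2 : 2 * ∫ x in G, |Real.exp (2 * κ * W x) *
      ((∑ j ∈ S, c j * v j x) * ⟪∑ j ∈ S, d j • g j x, gradient W x⟫_ℝ)| ≤
      ∫ x in G, (Real.exp (2 * κ * W x) *
        ((∑ j ∈ S, c j * v j x) * (∑ j ∈ S, c j * v j x)) + Real.exp (2 * κ * W x) *
      ⟪∑ j ∈ S, d j • g j x, ∑ j ∈ S, d j • g j x⟫_ℝ) := by
    rw [← integral_const_mul]
    apply integral_mono (i3.abs.const_mul 2) (i1.add i2)
    intro x
    simp only [Pi.add_apply]
    set A := ∑ j ∈ S, c j * v j x
    set B := ∑ j ∈ S, d j • g j x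
    have e0 : 0 < Real.exp (2 * κ * W x) := Real.exp_pos _
    rw [abs_mul, abs_mul, abs_of_pos e0, real_inner_self_eq_norm_sq]
    have h3 : |⟪B, gradient W x⟫_ℝ| ≤ ‖B‖ := by
      calc |⟪B, gradient W x⟫_ℝ| ≤ ‖B‖ * ‖gradient W x‖ := abs_real_inner_le_norm _ _
        _ ≤ ‖B‖ * 1 := mul_le_mul_of_nonneg_left (hW.norm_gradient x) (norm_nonneg _)
        _ = ‖B‖ := mul_one _
    have h4 : 2 * (|A| * |⟪B, gradient W x⟫_ℝ|) ≤ A * A + ‖B‖ ^ 2 := by
      have h5 : |A| * |⟪B, gradient W x⟫_ℝ| ≤ |A| * ‖B‖ :=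
        mul_le_mul_of_nonneg_left h3 (abs_nonneg _)
      have h6 : |A| ^ 2 = A * A := by rw [sq_abs, sq]
      nlinarith [sq_nonneg (|A| - ‖B‖)]
    nlinarith
  linarith

end forms

/-- Job AV-V2. -/
theorem t_V2 (G : Set (Eu n)) (hGo : IsOpen G) (lam : ℕ → ℝ) (v : ℕ → Eu n → ℝ)
    (g : ℕ → Eu n → Eu n) (hlam : ∀ j, 0 < lam j) (heig : ∀ j, Eig G (lam j) (v j) (g j))
    {W : Eu n → ℝ} (hW : GW W) (κ : ℝ) (hκ : 0 ≤ κ) (S : Finset ℕ) (a : ℕ → ℝ) (t : ℝ)
    (ht : 0 ≤ t) :
    ∫ x in G, Real.exp (2 * κ * W x) * (∑ j ∈ S, a j * Real.cos (√(lam j) * t) * v j x) ^ 2 ≤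
      Real.exp (2 * κ * t) *
        ∫ x in G, Real.exp (2 * κ * W x) * (∑ j ∈ S, a j * v j x) ^ 2 := by
  have hv : ∀ j, MemLp (v j) 2 (volume.restrict G) := fun j => (heig j).1.1
  have hg : ∀ j, MemLp (g j) 2 (volume.restrict G) := fun j => (heig j).1.2.1
  have hid : ∀ j k, QQ G W κ g j k = lam j * PP G W κ v j k - 2 * κ * RR G W κ v g k j := by
    intro j k
    exact weighted_identity hGo hW κ hκ (lam j) (lam k) (v j) (v k) (g j) (g k) (heig j) (heig k)
  have hsq : ∀ j, 0 < √(lam j) := fun j => Real.sqrt_pos.2 (hlam j)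
  have hsq2 : ∀ j, √(lam j) * √(lam j) = lam j := fun j => Real.mul_self_sqrt (hlam j).le
  have h1 : ∀ (s : ℝ) (j : ℕ), HasDerivAt (fun s : ℝ => √(lam j) * s) (√(lam j)) s := by
    intro s j
    simpa using (hasDerivAt_id s).const_mul (√(lam j))
  have hen := energy S κ lam (PP G W κ v) (QQ G W κ g) (RR G W κ v g)
    (fun s j => a j * Real.cos (√(lam j) * s))
    (fun s j => a j * (Real.sin (√(lam j) * s) / √(lam j)))
    (by
      intro s j
      refine (((h1 s j).cos).const_mul (a j)).congr_deriv ?_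
      have h3 := (hsq j).ne'
      have h4 := hsq2 j
      have h5 : lam j * (a j * (Real.sin (√(lam j) * s) / √(lam j))) =
          a j * Real.sin (√(lam j) * s) * √(lam j) := by
        nth_rewrite 1 [← h4]
        field_simp
      rw [h5]
      ring)
    (by
      intro s j
      refine (((h1 s j).sin.div_const (√(lam j))).const_mul (a j)).congr_deriv ?_
      have h3 := (hsq j).ne'
      field_simp)
    (PP_symm W κ v) (QQ_symm W κ g) hid hκ
    (fun c d => abs_R_le W κ v g hGo hW hκ hv hg S c d) t ht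
  simp only [Finset.sum_add_distrib, mul_zero, Real.cos_zero, mul_one, Real.sin_zero, zero_div,
    zero_mul, Finset.sum_const_zero, add_zero] at hen
  have e1 := expand_P W κ v g hGo hW hκ hv hg S (fun j => a j * Real.cos (√(lam j) * t))
    (fun j => a j * Real.cos (√(lam j) * t))
  have e2 := expand_P W κ v g hGo hW hκ hv hg S a a
  have e3 := expand_Q W κ v g hGo hW hκ hv hg S
    (fun j => a j * (Real.sin (√(lam j) * t) / √(lam j)))
    (fun j => a j * (Real.sin (√(lam j) * t) / √(lam j)))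
  have h0 : 0 ≤ ∫ x in G, Real.exp (2 * κ * W x) *
      ⟪∑ j ∈ S, (a j * (Real.sin (√(lam j) * t) / √(lam j))) • g j x,
        ∑ j ∈ S, (a j * (Real.sin (√(lam j) * t) / √(lam j))) • g j x⟫_ℝ := by
    apply integral_nonneg
    intro x
    have : 0 < Real.exp (2 * κ * W x) := Real.exp_pos _
    exact mul_nonneg this.le real_inner_self_nonneg
  simp only [← sq] at e1 e2
  rw [e1, e2]
  linarith

end Pool.Agent.H30AV
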