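import Pool.Agent.H30AV.U2
import Pool.Graph.R_pool_sql_team_seeded_3997aac3.Q272.AV.V3

set_option autoImplicit false

/-! Finite speed of propagation (library: Q272.AV.V3) without boundedness of `G`. -/

open MeasureTheory Filter Topology Set
open scoped ContDiff InnerProductSpace

namespace Pool.Agent.H30AV

open Pool.Agent.Q62.AV
open Pool.Agent.Q272.AV (lim_inner lim_mul integrable_inner integrable_mul wt_pos tendsto_of_hasSum
  lim_weight norm_sq_eq coeFn_sum_smul)

variable {n : ℕ}

/-- Job AV-V3. -/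
theorem t_V3 (v0 : S_V0) (G G₀ : Set (Eu n)) (hGo : IsOpen G) (hG₀ : MeasurableSet G₀)
    (lam : ℕ → ℝ) (e : HilbertBasis ℕ ℝ (HG G)) (hDB : DirBasis G lam e)
    (x₀ : Eu n) (r R : ℝ) (hr : 0 < r) (hrR : r < R) (hfar : ∀ x ∈ G₀, R ≤ dist x x₀)
    (f : HG G) (hf : ∀ᵐ x ∂(volume.restrict G), x ∉ Metric.ball x₀ r → f x = 0)
    (t : ℝ) (ht : 0 ≤ t) (htlt : t < √(1 + R ^ 2) - √(1 + r ^ 2)) :
    ∀ᵐ x ∂(volume.restrict G), x ∈ G₀ →
      (dg e (fun j => Real.cos (√(lam j) * t)) f : HG G) x = 0 := by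
  obtain ⟨hlam, hex⟩ := hDB
  set δ₀ : ℝ := √(1 + R ^ 2) - √(1 + r ^ 2) - t with hδ₀
  have hδ₀p : 0 < δ₀ := by rw [hδ₀]; linarith
  set M : ℝ := 2 * (1 + R ^ 2) / δ₀ with hMdef
  have hM : 0 < M := by positivity
  set W : Eu n → ℝ := fun x => tr M (wt x₀ x) with hWdef
  have hW : GW W := gw_tr x₀ hM
  choose g hg using hex
  obtain ⟨hco, -, -⟩ := v0 e (fun j => Real.cos (√(lam j) * t)) 1
    (fun j => Real.abs_cos_le_one _) f
  set u : HG G := dg e (fun j => Real.cos (√(lam j) * t)) f with hu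
  have hsf : HasSum (fun j => ⟪e j, f⟫_ℝ • e j) f := by
    have := e.hasSum_repr f
    simpa only [HilbertBasis.repr_apply_apply] using this
  have hsu : HasSum (fun j => (⟪e j, f⟫_ℝ * Real.cos (√(lam j) * t)) • e j) u := by
    have := e.hasSum_repr u
    simp only [HilbertBasis.repr_apply_apply, hco] at this
    simpa only [mul_comm] using this
  have tf := tendsto_of_hasSum _ _ _ hsf
  have tu := tendsto_of_hasSum _ _ _ hsu
  have mfin : ∀ (b : ℕ → ℝ) (N : ℕ),
      MemLp (fun x => ∑ j ∈ Finset.range N, b j * (e j : HG G) x) 2 (volume.restrict G) :=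
    fun b N => memLp_finsetSum _ (fun j _ => (Lp.memLp (e j)).const_mul (b j))
  have main : ∀ κ : ℝ, 0 ≤ κ → ∫ x in G, Wf W κ x * (u : HG G) x ^ 2 ≤
      Real.exp (2 * κ * t) * ∫ x in G, Wf W κ x * (f : HG G) x ^ 2 := by
    intro κ hκ
    obtain ⟨C, hC0, hC⟩ := Wf_bdd hW κ hκ
    have w1 : AEStronglyMeasurable (Wf W κ) (volume.restrict G) :=
      (Wf_contDiff hW κ).continuous.aestronglyMeasurable
    have w2 : ∀ᵐ x ∂(volume.restrict G), 0 ≤ Wf W κ x := by
      filter_upwards with x
      exact (Wf_pos W κ x).le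
    have w3 : ∀ᵐ x ∂(volume.restrict G), Wf W κ x ≤ C := by
      rw [ae_restrict_iff' hGo.measurableSet]
      filter_upwards with x hx
      exact hC x
    have l1 := lim_weight C w1 w2 w3 (fun N => mfin _ N) (Lp.memLp u) tu
    have l2 := (lim_weight C w1 w2 w3 (fun N => mfin _ N) (Lp.memLp f) tf).const_mul
      (Real.exp (2 * κ * t))
    refine le_of_tendsto_of_tendsto' l1 l2 (fun N => ?_)
    exact t_V2 G hGo lam (fun j x => (e j : HG G) x) g hlam hg hW κ hκ (Finset.range N)
      (fun j => ⟪e j, f⟫_ℝ) t ht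
  have sqint : ∀ z : HG G, Integrable (fun x => z x ^ 2) (volume.restrict G) := by
    intro z
    refine (integrable_mul (Lp.memLp z) (Lp.memLp z)).congr ?_
    filter_upwards with x
    ring
  have wint : ∀ κ : ℝ, 0 ≤ κ → ∀ z : HG G,
      Integrable (fun x => Wf W κ x * z x ^ 2) (volume.restrict G) := by
    intro κ hκ z
    refine (integrable_mul (memLp_W hGo hW κ hκ (Lp.memLp z)) (Lp.memLp z)).congr ?_
    filter_upwards with x
    simp only [smul_eq_mul]
    ring
  set A : ℝ := ∫ x in G, G₀.indicator (fun x => (u : HG G) x ^ 2) x with hA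
  set B : ℝ := ∫ x in G, (f : HG G) x ^ 2 with hB
  set SR : ℝ := tr M (√(1 + R ^ 2)) with hSR
  set Sr : ℝ := tr M (√(1 + r ^ 2)) with hSr
  set δ : ℝ := SR - Sr - t with hδ
  have hδ0 : 0 < δ := by
    have h1 := le_tr hM (Real.sqrt_nonneg (1 + R ^ 2))
    have h2 := tr_le hM (Real.sqrt_nonneg (1 + r ^ 2))
    have h3 : √(1 + R ^ 2) ^ 2 = 1 + R ^ 2 := Real.sq_sqrt (by positivity)
    rw [h3] at h1
    have h4 : (1 + R ^ 2) / M = δ₀ / 2 := by
      rw [hMdef]
      field_simp
    rw [h4] at h1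
    rw [hδ, hSR, hSr]
    have h5 : √(1 + R ^ 2) - √(1 + r ^ 2) - t = δ₀ := rfl
    linarith
  have hineq : ∀ κ : ℝ, 0 ≤ κ → A ≤ Real.exp (-(2 * κ * δ)) * B := by
    intro κ hκ
    have h1 : Real.exp (2 * κ * SR) * A ≤ ∫ x in G, Wf W κ x * (u : HG G) x ^ 2 := by
      rw [hA, ← integral_const_mul]
      apply integral_mono_ae (((sqint u).indicator hG₀).const_mul _) (wint κ hκ u)
      filter_upwards with x
      by_cases hx : x ∈ G₀
      · rw [indicator_of_mem hx]
        apply mul_le_mul_of_nonneg_right _ (sq_nonneg _)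
        unfold Wf
        apply Real.exp_le_exp.2
        have h2 : SR ≤ W x := by
          apply tr_mono hM (Real.sqrt_nonneg _)
          unfold wt
          apply Real.sqrt_le_sqrt
          have h3 := hfar x hx
          rw [dist_eq_norm] at h3
          have := pow_le_pow_left₀ (hr.trans hrR).le h3 2
          linarith
        nlinarith
      · rw [indicator_of_notMem hx, mul_zero]
        exact mul_nonneg (Wf_pos W κ x).le (sq_nonneg _)
    have h2 : ∫ x in G, Wf W κ x * (f : HG G) x ^ 2 ≤ Real.exp (2 * κ * Sr) * B := by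
      rw [hB, ← integral_const_mul]
      apply integral_mono_ae (wint κ hκ f) ((sqint f).const_mul _)
      filter_upwards [hf] with x hx
      by_cases hxb : x ∈ Metric.ball x₀ r
      · apply mul_le_mul_of_nonneg_right _ (sq_nonneg _)
        unfold Wf
        apply Real.exp_le_exp.2
        have h3 : W x ≤ Sr := by
          apply tr_mono hM (wt_pos x₀ x).le
          unfold wt
          apply Real.sqrt_le_sqrt
          rw [mem_ball_iff_norm] at hxb
          have := pow_le_pow_left₀ (norm_nonneg _) hxb.le 2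
          linarith
        nlinarith
      · rw [hx hxb]
        simp
    have h3 := main κ hκ
    have h4 : Real.exp (2 * κ * SR) * A ≤
        Real.exp (2 * κ * t) * (Real.exp (2 * κ * Sr) * B) :=
      (h1.trans h3).trans (mul_le_mul_of_nonneg_left h2 (Real.exp_pos _).le)
    have h5 : Real.exp (-(2 * κ * δ)) * B = Real.exp (-(2 * κ * SR)) *
        (Real.exp (2 * κ * t) * (Real.exp (2 * κ * Sr) * B)) := by
      rw [← mul_assoc, ← mul_assoc, ← Real.exp_add, ← Real.exp_add]
      congr 2
      rw [hδ]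
      ring
    have h6 : A = Real.exp (-(2 * κ * SR)) * (Real.exp (2 * κ * SR) * A) := by
      rw [← mul_assoc, ← Real.exp_add, neg_add_cancel, Real.exp_zero, one_mul]
    rw [h5, h6]
    exact mul_le_mul_of_nonneg_left h4 (Real.exp_pos _).le
  have hA0 : A ≤ 0 := by
    have h1 : Tendsto (fun κ : ℝ => Real.exp (-(2 * κ * δ)) * B) atTop (𝓝 (0 * B)) := by
      apply Tendsto.mul_const
      apply Real.tendsto_exp_neg_atTop_nhds_zero.comp
      have : Tendsto (fun κ : ℝ => κ * (2 * δ)) atTop atTop :=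
        tendsto_id.atTop_mul_const (by positivity)
      refine this.congr (fun κ => by ring)
    rw [zero_mul] at h1
    refine ge_of_tendsto h1 ?_
    filter_upwards [eventually_ge_atTop 0] with κ hκ
    exact hineq κ hκ
  have hnn : 0 ≤ᵐ[volume.restrict G] fun x => G₀.indicator (fun x => (u : HG G) x ^ 2) x := by
    filter_upwards with x
    exact indicator_nonneg (fun _ _ => sq_nonneg _) x
  have hA1 : A = 0 := le_antisymm hA0 (integral_nonneg_of_ae hnn)
  rw [hA, integral_eq_zero_iff_of_nonneg_ae hnn ((sqint u).indicator hG₀)] at hA1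
  filter_upwards [hA1] with x hx hxG
  rw [indicator_of_mem hxG] at hx
  simpa using hx

end Pool.Agent.H30AV
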