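import Pool.Agent.H30AV.U3
import Pool.Graph.R_pool_sql_team_seeded_3997aac3.Q275.AV.V6

set_option autoImplicit false

/-! Concentrated vectors (library: Q275.AV.V6) without boundedness of `G`, for every eigenfunction
which does not vanish a.e. off the closure of the control set. -/

open MeasureTheory Filter Topology Set
open scoped ContDiff InnerProductSpace

namespace Pool.Agent.H30AV

open Pool.Agent.Q62.AV
open Pool.Agent.Q275.AV (Kr Kr_nonneg Kr_int Ph Ph_cont hasSum_exp)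

theorem t_V6 (v0 : S_V0) (v4 : S_V4) (v5 : S_V5) {n : ℕ} (G G₀ : Set (Eu n)) (hG : IsOpen G)
    (hG₀ : IsOpen G₀) (lam : ℕ → ℝ) (e : HilbertBasis ℕ ℝ (HG G)) (hD : DirBasis G lam e)
    (j₀ : ℕ) (hne : ¬ ∀ᵐ x ∂(volume.restrict G), x ∈ interior (G \ closure G₀) →
      (e j₀ : HG G) x = 0) :
    ∀ C : ℝ, ∃ z : HG G, C ≤ |⟪e j₀, z⟫_ℝ| ∧
      ∀ s : ℝ, 0 ≤ s → ∀ h : HG G, ‖h‖ ≤ 1 →
        (∀ᵐ x ∂(volume.restrict G), x ∉ G₀ → h x = 0) →
        |∑' j, Real.exp (-(s * √(lam j))) * ⟪e j, z⟫_ℝ * ⟪e j, h⟫_ℝ| ≤ 1 := by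
  -- a point near which the eigenfunction does not vanish
  obtain ⟨x₀, hx₀, hloc⟩ : ∃ x₀ ∈ interior (G \ closure G₀), ∀ R : ℝ, 0 < R →
      ¬ ∀ᵐ x ∂(volume.restrict G), x ∈ Metric.ball x₀ R → (e j₀ : HG G) x = 0 := by
    by_contra hcon
    push Not at hcon
    apply hne
    rw [ae_iff]
    apply measure_null_of_locally_null
    intro x hx
    simp only [not_forall, mem_ofPred_eq] at hx
    obtain ⟨hx1, hx2⟩ := hx
    obtain ⟨R, hR, hz⟩ := hcon x hx1
    refine ⟨_, inter_mem_nhdsWithin _ (Metric.ball_mem_nhds x hR), ?_⟩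
    rw [ae_iff] at hz
    refine measure_mono_null ?_ hz
    rintro y ⟨hy1, hy2⟩
    simp only [not_forall, mem_ofPred_eq] at hy1 ⊢
    exact ⟨hy2, hy1.2⟩
  obtain ⟨R, hR, hRb⟩ := Metric.isOpen_iff.mp isOpen_interior x₀ hx₀
  have hRb' : Metric.ball x₀ R ⊆ G \ closure G₀ := hRb.trans interior_subset
  have hfar : ∀ x ∈ G₀, R ≤ dist x x₀ := by
    intro x hx
    by_contra hlt
    push Not at hlt
    exact (hRb' (Metric.mem_ball.mpr hlt)).2 (subset_closure hx)
  have hr : 0 < R / 2 := by positivity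
  have hrR : R / 2 < R := by linarith
  have hmeas : MeasurableSet (Metric.ball x₀ (R / 2)) := Metric.isOpen_ball.measurableSet
  set f : HG G := ((Lp.memLp (e j₀ : HG G)).indicator hmeas).toLp _ with hf
  have hfc : (f : HG G) =ᵐ[volume.restrict G]
      (Metric.ball x₀ (R / 2)).indicator (fun x => (e j₀ : HG G) x) := MemLp.coeFn_toLp _
  have hfae : ∀ᵐ x ∂(volume.restrict G), x ∉ Metric.ball x₀ (R / 2) → f x = 0 := by
    filter_upwards [hfc] with x hx hxn
    rw [hx, indicator_of_notMem hxn]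
  have hj₀ : ⟪e j₀, f⟫_ℝ ≠ 0 := by
    intro h0
    rw [L2.inner_def] at h0
    have h1 : ∫ x, (Metric.ball x₀ (R / 2)).indicator (fun x => (e j₀ : HG G) x ^ 2) x
        ∂(volume.restrict G) = 0 := by
      rw [← h0]
      apply integral_congr_ae
      filter_upwards [hfc] with x hx
      rw [hx]
      by_cases hxb : x ∈ Metric.ball x₀ (R / 2)
      · rw [indicator_of_mem hxb, indicator_of_mem hxb]
        simp [sq]
      · rw [indicator_of_notMem hxb, indicator_of_notMem hxb]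
        simp
    have hint : Integrable ((Metric.ball x₀ (R / 2)).indicator (fun x => (e j₀ : HG G) x ^ 2))
        (volume.restrict G) := (Lp.memLp (e j₀ : HG G)).integrable_sq.indicator hmeas
    rw [integral_eq_zero_iff_of_nonneg_ae (by
      filter_upwards with x
      exact indicator_nonneg (fun _ _ => sq_nonneg _) x) hint] at h1
    apply hloc (R / 2) hr
    filter_upwards [h1] with x hx hxb
    rw [indicator_of_mem hxb] at hx
    simpa using hx
  intro C
  have hd0 : 0 < √(1 + R ^ 2) - √(1 + (R / 2) ^ 2) := by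
    rw [sub_pos]
    refine Real.sqrt_lt_sqrt (by positivity) ?_
    nlinarith
  set d := √(1 + R ^ 2) - √(1 + (R / 2) ^ 2) with hd
  have hμ0 : 0 < √(lam j₀) := Real.sqrt_pos.mpr (hD.1 j₀)
  have hn0 : 0 < 1 + ‖f‖ := by positivity
  obtain ⟨N, c, r, hr0, hb, hC⟩ := v5 d (√(lam j₀)) (|C| * (1 + ‖f‖) / |⟪e j₀, f⟫_ℝ|) hd0 hμ0
  have hΦ : ∀ ρ : ℝ, 0 ≤ ρ → ∀ j, |Real.exp (-(ρ * √(lam j)))| ≤ 1 := by
    intro ρ hρ j
    rw [abs_of_pos (Real.exp_pos _), Real.exp_le_one_iff]
    have := mul_nonneg hρ (Real.sqrt_nonneg (lam j))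
    linarith
  set z : HG G := (1 + ‖f‖)⁻¹ • ∑ k, c k • dg e (fun j => Real.exp (-(r k * √(lam j)))) f with hz
  have hzj : ∀ j, ⟪e j, z⟫_ℝ = (1 + ‖f‖)⁻¹ *
      ∑ k, c k * (Real.exp (-(r k * √(lam j))) * ⟪e j, f⟫_ℝ) := by
    intro j
    rw [hz, inner_smul_right, inner_sum]
    congr 1
    refine Finset.sum_congr rfl fun k _ => ?_
    rw [inner_smul_right, (v0 e _ 1 (hΦ (r k) (hr0 k)) f).1 j]
  refine ⟨z, ?_, ?_⟩
  · have h1 : ⟪e j₀, z⟫_ℝ = (1 + ‖f‖)⁻¹ * (⟪e j₀, f⟫_ℝ *
        ∑ k, c k * Real.exp (-(√(lam j₀) * r k))) := by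
      rw [hzj]
      congr 1
      rw [Finset.mul_sum]
      refine Finset.sum_congr rfl fun k _ => ?_
      rw [mul_comm (r k) (√(lam j₀))]
      ring
    rw [h1, abs_mul, abs_mul, abs_of_pos (inv_pos.mpr hn0)]
    have h2 : 0 < |⟪e j₀, f⟫_ℝ| := abs_pos.mpr hj₀
    have h3 : |C| * (1 + ‖f‖) ≤ |⟪e j₀, f⟫_ℝ| * |∑ k, c k * Real.exp (-(√(lam j₀) * r k))| := by
      rw [div_le_iff₀ h2] at hC
      rw [mul_comm (|⟪e j₀, f⟫_ℝ|)]
      exact hC
    calc C ≤ |C| := le_abs_self C
      _ = (1 + ‖f‖)⁻¹ * (|C| * (1 + ‖f‖)) := by field_simp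
      _ ≤ _ := mul_le_mul_of_nonneg_left h3 (inv_pos.mpr hn0).le
  · intro s hs h hh1 hhsupp
    set w : ℕ → ℝ := fun j => ⟪e j, f⟫_ℝ * ⟪e j, h⟫_ℝ with hwdef
    have hw : Summable fun j => |w j| := ((v0 e (fun _ => 1) 1 (fun _ => by simp) f).2.2 h).1
    have hPh : ∀ t, Ph (fun j => √(lam j)) w t =
        ⟪dg e (fun j => Real.cos (√(lam j) * t)) f, h⟫_ℝ := by
      intro t
      rw [((v0 e _ 1 (fun j => Real.abs_cos_le_one _) f).2.2 h).2]
      unfold Ph
      refine tsum_congr fun j => ?_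
      rw [hwdef]
      ring
    have hPh1 : ∀ t, |Ph (fun j => √(lam j)) w t| ≤ ‖f‖ := by
      intro t
      rw [hPh]
      refine (abs_real_inner_le_norm _ _).trans ?_
      have h1 := (v0 e (fun j => Real.cos (√(lam j) * t)) 1 (fun j => Real.abs_cos_le_one _) f).2.1
      rw [one_mul] at h1
      calc _ ≤ ‖f‖ * 1 := mul_le_mul h1 hh1 (norm_nonneg _) (norm_nonneg _)
        _ = ‖f‖ := mul_one _
    have hPh0 : ∀ t, 0 ≤ t → t < d → Ph (fun j => √(lam j)) w t = 0 := by
      intro t ht htd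
      rw [hPh, L2.inner_def]
      have h1 := t_V3 v0 G G₀ hG hG₀.measurableSet lam e hD x₀ (R / 2) R hr hrR hfar f hfae t
        ht htd
      refine integral_eq_zero_of_ae ?_
      filter_upwards [h1, hhsupp] with x hx1 hx2
      by_cases hx : x ∈ G₀
      · rw [hx1 hx, inner_zero_left]
        rfl
      · rw [hx2 hx, inner_zero_right]
        rfl
    -- positive `s`
    have main : ∀ s : ℝ, 0 < s → HasSum
        (fun j => Real.exp (-(s * √(lam j))) * ⟪e j, z⟫_ℝ * ⟪e j, h⟫_ℝ)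
        ((1 + ‖f‖)⁻¹ * (2 / Real.pi * ∫ t in Ioi (0 : ℝ), (∑ k, c k * Kr (s + r k) t) *
          Ph (fun j => √(lam j)) w t)) := by
      intro s hs
      have hpos : ∀ k, 0 < s + r k := fun k => by linarith [hr0 k]
      have h1 : ∀ k, HasSum (fun j => Real.exp (-((s + r k) * √(lam j))) * w j)
          (2 / Real.pi * ∫ t in Ioi (0 : ℝ), Kr (s + r k) t * Ph (fun j => √(lam j)) w t) :=
        fun k => hasSum_exp v4 (fun j => Real.sqrt_nonneg _) hw (hpos k)
      have h2 := (hasSum_sum fun k (_ : k ∈ Finset.univ) => (h1 k).mul_left (c k)).mul_left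
        ((1 + ‖f‖)⁻¹)
      have h3 : ∑ k, c k * (2 / Real.pi * ∫ t in Ioi (0 : ℝ), Kr (s + r k) t *
          Ph (fun j => √(lam j)) w t) = 2 / Real.pi * ∫ t in Ioi (0 : ℝ),
          (∑ k, c k * Kr (s + r k) t) * Ph (fun j => √(lam j)) w t := by
        have h4 : ∀ k, Integrable (fun t => c k * Kr (s + r k) t * Ph (fun j => √(lam j)) w t)
            (volume.restrict (Ioi 0)) := fun k =>
          ((Kr_int v4 (hpos k)).const_mul (c k)).mul_bdd (c := ‖f‖)
            (Ph_cont hw).aestronglyMeasurable (ae_of_all _ fun t => by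
              rw [Real.norm_eq_abs]
              exact hPh1 t)
        have h5 : (∫ t in Ioi (0 : ℝ), (∑ k, c k * Kr (s + r k) t) *
            Ph (fun j => √(lam j)) w t) = ∑ k, ∫ t in Ioi (0 : ℝ), c k * Kr (s + r k) t *
            Ph (fun j => √(lam j)) w t := by
          rw [← integral_finsetSum _ fun k _ => h4 k]
          refine integral_congr_ae (ae_of_all _ fun t => ?_)
          exact Finset.sum_mul _ _ _
        rw [h5, Finset.mul_sum]
        refine Finset.sum_congr rfl fun k _ => ?_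
        have h6 : (∫ t in Ioi (0 : ℝ), c k * Kr (s + r k) t * Ph (fun j => √(lam j)) w t) =
            c k * ∫ t in Ioi (0 : ℝ), Kr (s + r k) t * Ph (fun j => √(lam j)) w t := by
          rw [← integral_const_mul]
          refine integral_congr_ae (ae_of_all _ fun t => ?_)
          exact mul_assoc _ _ _
        rw [h6]
        ring
      rw [h3] at h2
      refine h2.congr_fun fun j => ?_
      rw [hzj, hwdef]
      have h7 : ∀ k, Real.exp (-((s + r k) * √(lam j))) =
          Real.exp (-(s * √(lam j))) * Real.exp (-(r k * √(lam j))) := fun k => by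
        rw [← Real.exp_add]
        congr 1
        ring
      simp only [h7, Finset.mul_sum, Finset.sum_mul]
      refine Finset.sum_congr rfl fun k _ => ?_
      ring
    have mainb : ∀ s : ℝ, 0 < s →
        |∑' j, Real.exp (-(s * √(lam j))) * ⟪e j, z⟫_ℝ * ⟪e j, h⟫_ℝ| ≤ 1 := by
      intro s hs
      rw [(main s hs).tsum_eq]
      have hpos : ∀ k, 0 < s + r k := fun k => by linarith [hr0 k]
      have hKi : IntegrableOn (fun t => ∑ k, c k * Kr (s + r k) t) (Ioi 0) :=
        integrable_finsetSum _ fun k _ => (Kr_int v4 (hpos k)).const_mul (c k)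
      have h1 : (∫ t in Ioi (0 : ℝ), (∑ k, c k * Kr (s + r k) t) *
          Ph (fun j => √(lam j)) w t) = ∫ t in Ioi d, (∑ k, c k * Kr (s + r k) t) *
          Ph (fun j => √(lam j)) w t := by
        have h0 : (∫ t in Ici d, (∑ k, c k * Kr (s + r k) t) * Ph (fun j => √(lam j)) w t) =
            ∫ t in Ioi d, (∑ k, c k * Kr (s + r k) t) * Ph (fun j => √(lam j)) w t :=
          integral_Ici_eq_integral_Ioi
        rw [← h0]
        refine setIntegral_eq_of_subset_of_forall_sdiff_eq_zero measurableSet_Ioi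
          (fun t (ht : d ≤ t) => lt_of_lt_of_le hd0 ht) fun t ht => ?_
        have ht1 : 0 < t := ht.1
        have ht2 : t < d := not_le.mp ht.2
        rw [hPh0 t ht1.le ht2, mul_zero]
      have h2 : |∫ t in Ioi d, (∑ k, c k * Kr (s + r k) t) * Ph (fun j => √(lam j)) w t| ≤
          ‖f‖ := by
        have hKd : IntegrableOn (fun t => ∑ k, c k * Kr (s + r k) t) (Ioi d) :=
          hKi.mono_set (Ioi_subset_Ioi hd0.le)
        have h3 := norm_integral_le_of_norm_le (μ := volume.restrict (Ioi d))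
          (f := fun t => (∑ k, c k * Kr (s + r k) t) * Ph (fun j => √(lam j)) w t)
          (g := fun t => |∑ k, c k * Kr (s + r k) t| * ‖f‖) (hKd.abs.mul_const _)
          (ae_of_all _ fun t => by
            rw [norm_mul, Real.norm_eq_abs, Real.norm_eq_abs]
            exact mul_le_mul_of_nonneg_left (hPh1 t) (abs_nonneg _))
        rw [Real.norm_eq_abs] at h3
        refine h3.trans ?_
        rw [integral_mul_const]
        have h4 := hb s hs.le
        calc _ ≤ 1 * ‖f‖ := mul_le_mul_of_nonneg_right h4 (norm_nonneg _)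
          _ = ‖f‖ := one_mul _
      rw [h1, abs_mul, abs_mul, abs_of_pos (inv_pos.mpr hn0), abs_of_pos (by positivity)]
      have h5 : 2 / Real.pi ≤ 1 := by
        rw [div_le_one Real.pi_pos]
        exact Real.two_le_pi
      calc (1 + ‖f‖)⁻¹ * (2 / Real.pi * |∫ t in Ioi d, (∑ k, c k * Kr (s + r k) t) *
            Ph (fun j => √(lam j)) w t|) ≤ (1 + ‖f‖)⁻¹ * (1 * ‖f‖) := by
            refine mul_le_mul_of_nonneg_left ?_ (inv_pos.mpr hn0).le
            exact mul_le_mul h5 h2 (abs_nonneg _) zero_le_one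
        _ ≤ 1 := by
            rw [one_mul, inv_mul_le_iff₀ hn0, mul_one]
            linarith
    rcases hs.lt_or_eq with h0 | h0
    · exact mainb s h0
    · rw [← h0]
      have hbs : Summable fun j => |⟪e j, z⟫_ℝ * ⟪e j, h⟫_ℝ| :=
        ((v0 e (fun _ => 1) 1 (fun _ => by simp) z).2.2 h).1
      have h1 : Tendsto (fun s : ℝ => ∑' j, Real.exp (-(s * √(lam j))) * ⟪e j, z⟫_ℝ * ⟪e j, h⟫_ℝ)
          (𝓝[>] 0) (𝓝 (∑' j, Real.exp (-(0 * √(lam j))) * ⟪e j, z⟫_ℝ * ⟪e j, h⟫_ℝ)) := by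
        refine tendsto_tsum_of_dominated_convergence hbs (fun j => ?_) ?_
        · refine Tendsto.mono_left ?_ nhdsWithin_le_nhds
          have hc : Continuous fun s : ℝ =>
              Real.exp (-(s * √(lam j))) * ⟪e j, z⟫_ℝ * ⟪e j, h⟫_ℝ := by fun_prop
          exact hc.tendsto 0
        · filter_upwards [self_mem_nhdsWithin] with s hs' j
          rw [mul_assoc, norm_mul, Real.norm_eq_abs, Real.norm_eq_abs]
          calc _ ≤ 1 * |⟪e j, z⟫_ℝ * ⟪e j, h⟫_ℝ| :=
                mul_le_mul_of_nonneg_right (hΦ s (le_of_lt hs') j) (abs_nonneg _)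
            _ = _ := one_mul _
      refine le_of_tendsto h1.abs ?_
      filter_upwards [self_mem_nhdsWithin] with s hs'
      exact mainb s hs'

end Pool.Agent.H30AV
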