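import Pool.Agent.H30AV.U6

set_option autoImplicit false

/-! No averaged control of the eigenfunctions (library: Q275.AV.V8) without boundedness of `G`. -/

open MeasureTheory Filter Topology Set
open scoped ContDiff InnerProductSpace

namespace Pool.Agent.H30AV

open Pool.Agent.Q62.AV

universe u

theorem t_V8 (v0 : S_V0) (v4 : S_V4) (v5 : S_V5) (v7 : S_V7) {n : ℕ} (G G₀ : Set (Eu n))
    (hG : IsOpen G) (hG₀ : IsOpen G₀) (lam : ℕ → ℝ) (e : HilbertBasis ℕ ℝ (HG G))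
    (hD : DirBasis G lam e) (T : ℝ) (hT : 0 < T)
    (j₀ : ℕ) (hne : ¬ ∀ᵐ x ∂(volume.restrict G), x ∈ interior (G \ closure G₀) →
      (e j₀ : HG G) x = 0) {Ω : Type u} [MeasurableSpace Ω] (P : Measure Ω) [IsProbabilityMeasure P]
    (α : Ω → ℝ) (hα : AEMeasurable α P) (hα0 : ∀ o, 0 ≤ α o) (γ : ℝ) (hγ : 0 < γ)
    (hγ2 : γ ≤ 1 / 2) :
    ¬ ∃ u : ℝ → HG G, IntegrableOn u (Icc 0 T) ∧
      (∀ᵐ τ ∂(volume.restrict (Icc 0 T)), ∀ᵐ x ∂(volume.restrict G), x ∉ G₀ → (u τ) x = 0) ∧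
      ∀ j, ∫ o, coef lam e γ T (α o) (e j₀) u j ∂P = 0 := by
  have hj₀ := t_V6 v0 v4 v5 G G₀ hG hG₀ lam e hD j₀ hne
  rintro ⟨u, hu2, husupp, hcoef⟩
  have huI : IntegrableOn u (Ioc 0 T) := Integrable.mono_measure hu2
    (Measure.restrict_mono Ioc_subset_Icc_self le_rfl)
  have hus : ∀ᵐ τ ∂(volume.restrict (Ioc 0 T)), ∀ᵐ x ∂(volume.restrict G),
      x ∉ G₀ → (u τ) x = 0 := ae_mono (Measure.restrict_mono Ioc_subset_Icc_self le_rfl) husupp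
  have hlam : ∀ j, 0 < lam j := hD.1
  have hl : ∀ j, 0 ≤ lam j ^ γ := fun j => Real.rpow_nonneg (hlam j).le _
  have hcI : ∀ j, Integrable (fun τ => ⟪e j, u τ⟫_ℝ) (volume.restrict (Ioc 0 T)) :=
    fun j => huI.const_inner (e j)
  -- the constants
  set U : ℝ := ∫ τ in Ioc 0 T, ‖u τ‖ with hU
  have hU0 : 0 ≤ U := integral_nonneg fun _ => norm_nonneg _
  have hexpI : ∀ (a : Ω → ℝ), AEMeasurable a P → (∀ o, 0 ≤ a o) →
      Integrable (fun o => Real.exp (-(a o))) P := by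
    intro a ha ha0
    refine Integrable.of_bound (Real.measurable_exp.comp_aemeasurable ha.neg).aestronglyMeasurable
      1 (ae_of_all _ fun o => ?_)
    rw [Real.norm_eq_abs, abs_of_pos (Real.exp_pos _), Real.exp_le_one_iff]
    linarith [ha0 o]
  have hMI : ∀ j, Integrable (fun o => Real.exp (-(α o * lam j ^ γ * T))) P := fun j =>
    hexpI _ ((hα.mul_const _).mul_const _) fun o => mul_nonneg (mul_nonneg (hα0 o) (hl j)) hT.le
  have hM0 : 0 < ∫ o, Real.exp (-(α o * lam j₀ ^ γ * T)) ∂P := integral_exp_pos (hMI j₀)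
  set M : ℝ := ∫ o, Real.exp (-(α o * lam j₀ ^ γ * T)) ∂P with hM
  obtain ⟨z, hzC, hz⟩ := hj₀ ((U + 1) / M)
  -- pointwise bound
  have hpt : ∀ h : HG G, (∀ᵐ x ∂(volume.restrict G), x ∉ G₀ → h x = 0) → ∀ s : ℝ, 0 ≤ s →
      |∑' j, Real.exp (-(s * lam j ^ γ)) * (⟪e j, z⟫_ℝ * ⟪e j, h⟫_ℝ)| ≤ ‖h‖ := by
    intro h hh s hs
    rcases eq_or_ne h 0 with h0 | h0
    · rw [h0]
      simp
    · have hn : 0 < ‖h‖ := norm_pos_iff.mpr h0
      have h1 := v7 (fun j => ⟪e j, z⟫_ℝ * ⟪e j, (‖h‖⁻¹ • h : HG G)⟫_ℝ) (fun j => √(lam j))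
        ((v0 e (fun _ => 1) 1 (fun _ => by simp) z).2.2 (‖h‖⁻¹ • h)).1
        (fun j => Real.sqrt_pos.mpr (hlam j)) (fun σ hσ => by
          have h2 := hz σ hσ (‖h‖⁻¹ • h) (by rw [norm_smul, norm_inv, norm_norm, inv_mul_cancel₀ hn.ne'])
            (by
              filter_upwards [hh, Lp.coeFn_smul (‖h‖⁻¹) h] with x hx1 hx2 hx3
              rw [hx2, Pi.smul_apply, hx1 hx3, smul_zero])
          simpa only [mul_assoc] using h2) (2 * γ) s (by positivity) (by linarith) hs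
      have h3 : ∀ j, √(lam j) ^ (2 * γ) = lam j ^ γ := by
        intro j
        rw [Real.sqrt_eq_rpow, ← Real.rpow_mul (hlam j).le]
        congr 1
        ring
      have h4 : (∑' j, Real.exp (-(s * √(lam j) ^ (2 * γ))) *
          (⟪e j, z⟫_ℝ * ⟪e j, (‖h‖⁻¹ • h : HG G)⟫_ℝ)) =
          ‖h‖⁻¹ * ∑' j, Real.exp (-(s * lam j ^ γ)) * (⟪e j, z⟫_ℝ * ⟪e j, h⟫_ℝ) := by
        rw [← tsum_mul_left]
        refine tsum_congr fun j => ?_
        rw [h3 j, inner_smul_right]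
        ring
      rw [h4, abs_mul, abs_of_pos (inv_pos.mpr hn), inv_mul_le_iff₀ hn, mul_one] at h1
      exact h1
  -- absolute sums
  have habs : ∀ h : HG G, Summable (fun j => |⟪e j, z⟫_ℝ * ⟪e j, h⟫_ℝ|) ∧
      (∑' j, |⟪e j, z⟫_ℝ * ⟪e j, h⟫_ℝ|) ≤ ‖z‖ * ‖h‖ := by
    intro h
    refine ⟨((v0 e (fun _ => 1) 1 (fun _ => by simp) z).2.2 h).1, ?_⟩
    have h1 := v0 e (fun j => ((SignType.sign (⟪e j, z⟫_ℝ * ⟪e j, h⟫_ℝ) : SignType) : ℝ)) 1
      (fun j => by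
        rcases (SignType.sign (⟪e j, z⟫_ℝ * ⟪e j, h⟫_ℝ)).trichotomy with h2 | h2 | h2 <;>
          rw [h2] <;> simp) z
    have h2 : (∑' j, |⟪e j, z⟫_ℝ * ⟪e j, h⟫_ℝ|) = ⟪dg e (fun j =>
        ((SignType.sign (⟪e j, z⟫_ℝ * ⟪e j, h⟫_ℝ) : SignType) : ℝ)) z, h⟫_ℝ := by
      rw [(h1.2.2 h).2]
      refine tsum_congr fun j => ?_
      rw [mul_assoc, sign_mul_self]
    rw [h2]
    calc _ ≤ ‖dg e (fun j => ((SignType.sign (⟪e j, z⟫_ℝ * ⟪e j, h⟫_ℝ) : SignType) : ℝ)) z‖ *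
          ‖h‖ := real_inner_le_norm _ _
      _ ≤ ‖z‖ * ‖h‖ := by
          refine mul_le_mul_of_nonneg_right ?_ (norm_nonneg _)
          have := h1.2.1
          rwa [one_mul] at this
  have habsm : AEStronglyMeasurable (fun τ => ∑' j, |⟪e j, z⟫_ℝ * ⟪e j, u τ⟫_ℝ|)
      (volume.restrict (Ioc 0 T)) := by
    refine aestronglyMeasurable_of_tendsto_ae atTop
      (f := fun (N : ℕ) τ => ∑ j ∈ Finset.range N, |⟪e j, z⟫_ℝ * ⟪e j, u τ⟫_ℝ|) (fun N => ?_)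
      (ae_of_all _ fun τ => (habs (u τ)).1.hasSum.tendsto_sum_nat)
    exact Finset.aestronglyMeasurable_fun_sum _ fun j _ =>
      ((hcI j).const_mul (⟪e j, z⟫_ℝ)).aestronglyMeasurable.norm
  have habsI : Integrable (fun τ => ∑' j, |⟪e j, z⟫_ℝ * ⟪e j, u τ⟫_ℝ|)
      (volume.restrict (Ioc 0 T)) := by
    refine Integrable.mono' (huI.norm.const_mul ‖z‖) habsm (ae_of_all _ fun τ => ?_)
    rw [Real.norm_eq_abs, abs_of_nonneg (tsum_nonneg fun j => abs_nonneg _)]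
    exact (habs (u τ)).2
  have hsumabs : Summable fun j => ∫ τ in Ioc 0 T, |⟪e j, z⟫_ℝ * ⟪e j, u τ⟫_ℝ| :=
    (hasSum_integral_of_dominated_convergence
      (bound := fun j τ => |⟪e j, z⟫_ℝ * ⟪e j, u τ⟫_ℝ|)
      (F := fun j τ => |⟪e j, z⟫_ℝ * ⟪e j, u τ⟫_ℝ|)
      (fun j => ((hcI j).const_mul (⟪e j, z⟫_ℝ)).aestronglyMeasurable.norm)
      (fun j => ae_of_all _ fun τ => by rw [Real.norm_eq_abs, abs_abs])
      (ae_of_all _ fun τ => (habs (u τ)).1) habsI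
      (ae_of_all _ fun τ => (habs (u τ)).1.hasSum)).summable
  -- the exponent
  have hexp1 : ∀ (o : Ω) (j : ℕ) (τ : ℝ), τ ∈ Ioc 0 T →
      |Real.exp (-(α o * lam j ^ γ * (T - τ)))| ≤ 1 := by
    intro o j τ hτ
    rw [abs_of_pos (Real.exp_pos _), Real.exp_le_one_iff]
    have := mul_nonneg (mul_nonneg (hα0 o) (hl j)) (sub_nonneg.mpr hτ.2)
    linarith
  -- for fixed `o`
  have hFm : ∀ (o : Ω) (j : ℕ), AEStronglyMeasurable (fun τ => ⟪e j, z⟫_ℝ *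
      (Real.exp (-(α o * lam j ^ γ * (T - τ))) * ⟪e j, u τ⟫_ℝ)) (volume.restrict (Ioc 0 T)) := by
    intro o j
    refine AEStronglyMeasurable.const_mul (AEStronglyMeasurable.mul ?_
      (hcI j).aestronglyMeasurable) _
    exact Continuous.aestronglyMeasurable (by fun_prop)
  have hFb : ∀ (o : Ω) (j : ℕ), ∀ᵐ τ ∂(volume.restrict (Ioc 0 T)), ‖⟪e j, z⟫_ℝ *
      (Real.exp (-(α o * lam j ^ γ * (T - τ))) * ⟪e j, u τ⟫_ℝ)‖ ≤
        |⟪e j, z⟫_ℝ * ⟪e j, u τ⟫_ℝ| := by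
    intro o j
    filter_upwards [ae_restrict_mem measurableSet_Ioc] with τ hτ
    rw [Real.norm_eq_abs, abs_mul, abs_mul, abs_mul]
    refine mul_le_mul_of_nonneg_left ?_ (abs_nonneg _)
    calc _ ≤ 1 * |⟪e j, u τ⟫_ℝ| := mul_le_mul_of_nonneg_right (hexp1 o j τ hτ) (abs_nonneg _)
      _ = _ := one_mul _
  have hRsum : ∀ o : Ω, HasSum (fun j => ⟪e j, z⟫_ℝ *
      ∫ τ in Ioc 0 T, Real.exp (-(α o * lam j ^ γ * (T - τ))) * ⟪e j, u τ⟫_ℝ)
      (∫ τ in Ioc 0 T, ∑' j, ⟪e j, z⟫_ℝ *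
        (Real.exp (-(α o * lam j ^ γ * (T - τ))) * ⟪e j, u τ⟫_ℝ)) := by
    intro o
    have h1 := hasSum_integral_of_dominated_convergence
      (bound := fun j τ => |⟪e j, z⟫_ℝ * ⟪e j, u τ⟫_ℝ|)
      (F := fun j τ => ⟪e j, z⟫_ℝ *
        (Real.exp (-(α o * lam j ^ γ * (T - τ))) * ⟪e j, u τ⟫_ℝ))
      (f := fun τ => ∑' j, ⟪e j, z⟫_ℝ *
        (Real.exp (-(α o * lam j ^ γ * (T - τ))) * ⟪e j, u τ⟫_ℝ))
      (μ := volume.restrict (Ioc 0 T)) (hFm o) (hFb o)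
      (ae_of_all _ fun τ => (habs (u τ)).1) habsI (by
        have h2 : ∀ᵐ τ ∂(volume.restrict (Ioc 0 T)), ∀ j, ‖⟪e j, z⟫_ℝ *
            (Real.exp (-(α o * lam j ^ γ * (T - τ))) * ⟪e j, u τ⟫_ℝ)‖ ≤
              |⟪e j, z⟫_ℝ * ⟪e j, u τ⟫_ℝ| := ae_all_iff.mpr (hFb o)
        filter_upwards [h2] with τ hτ
        exact (Summable.of_norm_bounded (habs (u τ)).1 hτ).hasSum)
    refine h1.congr_fun fun j => ?_
    exact (integral_const_mul _ _).symm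
  have hRb : ∀ o : Ω, ‖∫ τ in Ioc 0 T, ∑' j, ⟪e j, z⟫_ℝ *
      (Real.exp (-(α o * lam j ^ γ * (T - τ))) * ⟪e j, u τ⟫_ℝ)‖ ≤ U := by
    intro o
    refine norm_integral_le_of_norm_le huI.norm ?_
    filter_upwards [hus, ae_restrict_mem measurableSet_Ioc] with τ hτ1 hτ2
    have h1 := hpt (u τ) hτ1 (α o * (T - τ)) (mul_nonneg (hα0 o) (sub_nonneg.mpr hτ2.2))
    rw [Real.norm_eq_abs]
    refine le_trans (le_of_eq ?_) h1
    congr 1
    refine tsum_congr fun j => ?_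
    have h2 : α o * lam j ^ γ * (T - τ) = α o * (T - τ) * lam j ^ γ := by ring
    rw [h2]
    ring
  -- measurability in `o`
  have hIm : ∀ j, AEStronglyMeasurable (fun o => ∫ τ in Ioc 0 T,
      Real.exp (-(α o * lam j ^ γ * (T - τ))) * ⟪e j, u τ⟫_ℝ) P := by
    intro j
    refine AEStronglyMeasurable.integral_prod_right' (μ := P) (ν := volume.restrict (Ioc 0 T))
      (f := fun p : Ω × ℝ => Real.exp (-(α p.1 * lam j ^ γ * (T - p.2))) * ⟪e j, u p.2⟫_ℝ) ?_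
    refine AEStronglyMeasurable.mul ?_ (hcI j).aestronglyMeasurable.comp_snd
    have h1 : AEMeasurable (fun p : Ω × ℝ => α p.1) (P.prod (volume.restrict (Ioc 0 T))) :=
      hα.comp_fst
    exact (Real.measurable_exp.comp_aemeasurable ((h1.mul_const _).mul
      (measurable_const.sub measurable_snd).aemeasurable).neg).aestronglyMeasurable
  have hIb : ∀ (j : ℕ) (o : Ω), |∫ τ in Ioc 0 T,
      Real.exp (-(α o * lam j ^ γ * (T - τ))) * ⟪e j, u τ⟫_ℝ| ≤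
        ∫ τ in Ioc 0 T, |⟪e j, u τ⟫_ℝ| := by
    intro j o
    rw [← Real.norm_eq_abs]
    refine norm_integral_le_of_norm_le (hcI j).abs ?_
    filter_upwards [ae_restrict_mem measurableSet_Ioc] with τ hτ
    rw [Real.norm_eq_abs, abs_mul]
    calc _ ≤ 1 * |⟪e j, u τ⟫_ℝ| := mul_le_mul_of_nonneg_right (hexp1 o j τ hτ) (abs_nonneg _)
      _ = _ := one_mul _
  have hII : ∀ j, Integrable (fun o => ∫ τ in Ioc 0 T,
      Real.exp (-(α o * lam j ^ γ * (T - τ))) * ⟪e j, u τ⟫_ℝ) P := fun j =>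
    Integrable.of_bound (hIm j) _ (ae_of_all _ fun o => hIb j o)
  -- the value of the averages
  have hval : ∀ j, (∫ o, (∫ τ in Ioc 0 T,
      Real.exp (-(α o * lam j ^ γ * (T - τ))) * ⟪e j, u τ⟫_ℝ) ∂P) =
      -(⟪e j, e j₀⟫_ℝ * ∫ o, Real.exp (-(α o * lam j ^ γ * T)) ∂P) := by
    intro j
    have h1 := hcoef j
    unfold coef at h1
    simp only [intervalIntegral.integral_of_le hT.le] at h1
    rw [integral_add ((hMI j).mul_const _) (hII j), integral_mul_const] at h1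
    linarith
  have htot : HasSum (fun j => ∫ o, (⟪e j, z⟫_ℝ * ∫ τ in Ioc 0 T,
      Real.exp (-(α o * lam j ^ γ * (T - τ))) * ⟪e j, u τ⟫_ℝ) ∂P)
      (∫ o, (∫ τ in Ioc 0 T, ∑' j, ⟪e j, z⟫_ℝ *
        (Real.exp (-(α o * lam j ^ γ * (T - τ))) * ⟪e j, u τ⟫_ℝ)) ∂P) := by
    refine hasSum_integral_of_dominated_convergence
      (bound := fun j _ => |⟪e j, z⟫_ℝ| * ∫ τ in Ioc 0 T, |⟪e j, u τ⟫_ℝ|)
      (fun j => (hIm j).const_mul _) (fun j => ae_of_all _ fun o => ?_)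
      (ae_of_all _ fun _ => ?_) (integrable_const _) (ae_of_all _ fun o => hRsum o)
    · rw [Real.norm_eq_abs, abs_mul]
      exact mul_le_mul_of_nonneg_left (hIb j o) (abs_nonneg _)
    · refine hsumabs.congr fun j => ?_
      rw [← integral_const_mul]
      refine integral_congr_ae (ae_of_all _ fun τ => ?_)
      exact abs_mul _ _
  have htot2 : HasSum (fun j => ∫ o, (⟪e j, z⟫_ℝ * ∫ τ in Ioc 0 T,
      Real.exp (-(α o * lam j ^ γ * (T - τ))) * ⟪e j, u τ⟫_ℝ) ∂P) (-(⟪e j₀, z⟫_ℝ * M)) := by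
    have h1 : (fun j => ∫ o, (⟪e j, z⟫_ℝ * ∫ τ in Ioc 0 T,
        Real.exp (-(α o * lam j ^ γ * (T - τ))) * ⟪e j, u τ⟫_ℝ) ∂P) =
        fun j => if j = j₀ then -(⟪e j₀, z⟫_ℝ * M) else 0 := by
      funext j
      rw [integral_const_mul, hval j]
      split_ifs with h
      · rw [h, real_inner_self_eq_norm_sq, e.orthonormal.1 j₀, hM]
        ring
      · rw [e.orthonormal.2 h]
        ring
    rw [h1]
    exact hasSum_ite_eq j₀ _
  have hfin : |⟪e j₀, z⟫_ℝ| * M ≤ U := by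
    have h1 := htot.unique htot2
    have h2 : ‖∫ o, (∫ τ in Ioc 0 T, ∑' j, ⟪e j, z⟫_ℝ *
        (Real.exp (-(α o * lam j ^ γ * (T - τ))) * ⟪e j, u τ⟫_ℝ)) ∂P‖ ≤ U * P.real univ :=
      norm_integral_le_of_norm_le_const (ae_of_all _ hRb)
    rw [h1, Real.norm_eq_abs, abs_neg, abs_mul, abs_of_pos hM0] at h2
    simpa using h2
  rw [div_le_iff₀ hM0] at hzC
  linarith

end Pool.Agent.H30AV
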